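import Mathlib

set_option autoImplicit false

namespace Pool.Agent.Results.MP_0950f1_nt.EvenValues

open Polynomial Filter

/-- `seq P N k` is the term a(k+1) of the recursion a(1) = N,
a(n) = a(n-1) - gcd(a(n-1), P(n)). -/
def seq (P : ℤ[X]) (N : ℕ) : ℕ → ℤ
  | 0 => N
  | k + 1 => seq P N k - (Int.gcd (seq P N k) (P.eval ((k : ℤ) + 2)) : ℤ)

/-- a(n) for n ≥ 1. -/
def a (P : ℤ[X]) (N n : ℕ) : ℤ := seq P N (n - 1)

/-- f_P(N): the least n ≥ 1 with a(n) = 0. -/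
noncomputable def f (P : ℤ[X]) (N : ℕ) : ℕ := sInf {n : ℕ | 1 ≤ n ∧ a P N n = 0}

noncomputable def P0 : ℤ[X] := X ^ 2 + X + 2

lemma P0_eval (x : ℤ) : P0.eval x = x ^ 2 + x + 2 := by simp [P0]

lemma P0_even (x : ℤ) : (2 : ℤ) ∣ P0.eval x := by
  rw [P0_eval]
  have := Int.even_mul_succ_self x
  obtain ⟨r, hr⟩ := this
  exact ⟨r + 1, by nlinarith⟩

lemma step (N k : ℕ) (h : 0 < seq P0 N k) :
    0 ≤ seq P0 N (k + 1) ∧ (2 : ℤ) ∣ seq P0 N (k + 1) ∧ seq P0 N (k + 1) < seq P0 N k := by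
  set s := seq P0 N k with hs
  set p := P0.eval ((k : ℤ) + 2) with hp
  have hg : ((Int.gcd s p : ℕ) : ℤ) ∣ s := Int.gcd_dvd_left s p
  have hpos : 0 < Int.gcd s p := Int.gcd_pos_of_ne_zero_left p h.ne'
  have hle : ((Int.gcd s p : ℕ) : ℤ) ≤ s := Int.le_of_dvd h hg
  have e : seq P0 N (k + 1) = s - (Int.gcd s p : ℤ) := rfl
  rw [e]
  refine ⟨by omega, ?_, by omega⟩
  by_cases h2 : (2 : ℤ) ∣ s
  · have : (2 : ℤ) ∣ (Int.gcd s p : ℤ) := Int.dvd_coe_gcd h2 (P0_even _)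
    omega
  · have : ¬ (2 : ℤ) ∣ (Int.gcd s p : ℤ) := fun h' => h2 (h'.trans hg)
    omega

lemma bound (N : ℕ) (hN : 1 ≤ N) (k : ℕ) :
    (∃ j ≤ k + 1, seq P0 N j = 0) ∨
      (0 < seq P0 N (k + 1) ∧ (2 : ℤ) ∣ seq P0 N (k + 1) ∧ seq P0 N (k + 1) + 2 * k < N) := by
  induction k with
  | zero =>
    have h0 : 0 < seq P0 N 0 := by simp [seq]; omega
    obtain ⟨h1, h2, h3⟩ := step N 0 h0
    by_cases h : seq P0 N (0 + 1) = 0
    · exact Or.inl ⟨_, le_rfl, h⟩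
    · right
      have : seq P0 N 0 = N := rfl
      refine ⟨by omega, h2, by omega⟩
  | succ k ih =>
    rcases ih with ⟨j, hj, h⟩ | ⟨h0, h2, h3⟩
    · exact Or.inl ⟨j, by omega, h⟩
    · obtain ⟨g1, g2, g3⟩ := step N (k + 1) h0
      by_cases h : seq P0 N (k + 1 + 1) = 0
      · exact Or.inl ⟨_, le_rfl, h⟩
      · right
        refine ⟨by omega, g2, ?_⟩
        push_cast
        omega

lemma exists_zero (N : ℕ) (hN : 1 ≤ N) : ∃ n, 1 ≤ n ∧ 2 * n ≤ N + 4 ∧ a P0 N n = 0 := by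
  rcases bound N hN (N / 2) with ⟨j, hj, h⟩ | ⟨h0, h2, h3⟩
  · exact ⟨j + 1, by omega, by omega, by simpa [a] using h⟩
  · omega

lemma P0_irred : Irreducible P0 := by
  have hm : P0.Monic := by unfold P0; monicity!
  have hd : P0.natDegree = 2 := by unfold P0; compute_degree!
  refine (hm.irreducible_iff_roots_eq_zero_of_degree_le_three (by omega) (by omega)).2 ?_
  refine Multiset.eq_zero_of_forall_notMem fun x hx => ?_
  have := (mem_roots hm.ne_zero).1 hx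
  rw [IsRoot, P0_eval] at this
  nlinarith [sq_nonneg (2 * x + 1)]

/-- Disproof of Q1, by an irreducible monic polynomial: for P = x^2 + x + 2 the zero time
exists and f_P(N) ≤ (1 - δ) N for all large N. -/
theorem result :
    ∃ P : ℤ[X], Irreducible P ∧ P.Monic ∧ (∀ n : ℕ, 1 ≤ n → 0 ≤ P.eval (n : ℤ)) ∧
      Tendsto (fun n : ℕ => P.eval (n : ℤ)) atTop atTop ∧
      (∀ N : ℕ, 1 ≤ N → ∃ n : ℕ, 1 ≤ n ∧ a P N n = 0) ∧
      ∃ δ : ℝ, 0 < δ ∧ ∀ᶠ N : ℕ in atTop, (f P N : ℝ) ≤ (1 - δ) * N := by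
  refine ⟨P0, P0_irred, by unfold P0; monicity!, ?_, ?_, ?_, 1 / 4, by norm_num, ?_⟩
  · intro n _
    rw [P0_eval]; positivity
  · refine tendsto_atTop_mono (f := fun n : ℕ => (n : ℤ)) (fun n => ?_) tendsto_natCast_atTop_atTop
    rw [P0_eval]; nlinarith [sq_nonneg (n : ℤ)]
  · intro N hN
    obtain ⟨n, h1, -, h3⟩ := exists_zero N hN
    exact ⟨n, h1, h3⟩
  · filter_upwards [eventually_ge_atTop 8] with N hN
    obtain ⟨n, h1, h2, h3⟩ := exists_zero N (by omega)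
    have : f P0 N ≤ n := Nat.sInf_le ⟨h1, h3⟩
    have h4 : 4 * f P0 N ≤ 3 * N := by omega
    have h5 : (4 : ℝ) * f P0 N ≤ 3 * N := by exact_mod_cast h4
    linarith

end Pool.Agent.Results.MP_0950f1_nt.EvenValues
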